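import Pool.Agent.Work.MP_ca14f8_co.Gr

/-!
The Kronecker product with the identity, for MP_ca14f8_co.
-/

set_option autoImplicit false
open Classical

namespace Pool.Agent.Work.MP_ca14f8_co

variable {n : ℕ}

/-- `w ⊗ 1^k`. -/
def Bl (k : ℕ) (w : Equiv.Perm (Fin n)) : Equiv.Perm (Fin (n * k)) :=
  Equiv.permCongr finProdFinEquiv (Equiv.prodCongr w (Equiv.refl (Fin k)))

theorem Bl_apply (k : ℕ) (w : Equiv.Perm (Fin n)) (i : Fin n) (s : Fin k) :
    Bl k w (finProdFinEquiv (i, s)) = finProdFinEquiv (w i, s) := by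
  unfold Bl
  simp [Equiv.permCongr_apply]

theorem val_fp {k : ℕ} (i : Fin n) (s : Fin k) :
    (finProdFinEquiv (i, s) : Fin (n * k)).val = s.val + k * i.val := rfl

theorem lt_iff {k : ℕ} (i j : Fin n) (s t : Fin k) :
    (finProdFinEquiv (i, s) : Fin (n * k)) < finProdFinEquiv (j, t) ↔
      i < j ∨ (i = j ∧ s < t) := by
  rw [Fin.lt_def, val_fp, val_fp]
  have hs := s.isLt
  have ht := t.isLt
  rcases lt_trichotomy i j with h | h | h
  · have h' := Fin.lt_def.mp h
    have : k * i.val + k ≤ k * j.val := by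
      calc k * i.val + k = k * (i.val + 1) := by ring
        _ ≤ k * j.val := Nat.mul_le_mul_left _ (by omega)
    constructor
    · intro _; exact Or.inl h
    · intro _; omega
  · subst h
    constructor
    · intro h2; right; refine ⟨rfl, ?_⟩; rw [Fin.lt_def]; omega
    · rintro (h2 | ⟨_, h2⟩)
      · exact absurd h2 (lt_irrefl _)
      · rw [Fin.lt_def] at h2; omega
  · have h' := Fin.lt_def.mp h
    have : k * j.val + k ≤ k * i.val := by
      calc k * j.val + k = k * (j.val + 1) := by ring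
        _ ≤ k * i.val := Nat.mul_le_mul_left _ (by omega)
    constructor
    · intro _; omega
    · rintro (h2 | ⟨h2, _⟩)
      · exact absurd h2 (not_lt.mpr h.le)
      · exact absurd h2 h.ne'

theorem val_lt_iff {k m : ℕ} (j : Fin n) (t : Fin k) :
    (finProdFinEquiv (j, t) : Fin (n * k)).val < m * k ↔ j.val < m := by
  rw [val_fp]
  have ht := t.isLt
  constructor
  · intro h
    by_contra hc
    have : m * k ≤ k * j.val := by
      rw [mul_comm m k]; exact Nat.mul_le_mul_left _ (by omega)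
    omega
  · intro h
    have : k * j.val + k ≤ m * k := by
      calc k * j.val + k = k * (j.val + 1) := by ring
        _ ≤ k * m := Nat.mul_le_mul_left _ (by omega)
        _ = m * k := mul_comm _ _
    omega

theorem Gr_Bl {m : ℕ} (k : ℕ) {w : Equiv.Perm (Fin n)} (hw : Gr m w) : Gr (m * k) (Bl k w) := by
  intro x y hxy hlt
  obtain ⟨⟨i, s⟩, rfl⟩ := finProdFinEquiv.surjective x
  obtain ⟨⟨j, t⟩, rfl⟩ := finProdFinEquiv.surjective y
  rw [Bl_apply, Bl_apply, lt_iff] at hlt
  rw [lt_iff] at hxy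
  have hij : i < j ∧ w j < w i := by
    rcases hxy with h | ⟨h, h2⟩
    · refine ⟨h, ?_⟩
      rcases hlt with h3 | ⟨h3, _⟩
      · exact h3
      · exact absurd (w.injective h3) h.ne'
    · subst h
      rcases hlt with h3 | ⟨_, h3⟩
      · exact absurd h3 (lt_irrefl _)
      · exact absurd h3 (not_lt.mpr h2.le)
  have := hw i j hij.1 hij.2
  constructor
  · rw [val_lt_iff]; exact this.1
  · by_contra hc
    rw [not_le, val_lt_iff] at hc
    omega

/-- The product formula for the blow up. -/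
theorem V_Bl {m : ℕ} (k : ℕ) (w : Equiv.Perm (Fin n)) :
    V (m * k) (Bl k w) = ∏ p ∈ Tm n m, ∏ s : Fin k, ∏ t : Fin k,
      (((k : ℚ) * (yv w p.2 - yv w p.1) + ((t.val : ℚ) - (s.val : ℚ))) /
        ((k : ℚ) * ((p.2.val : ℚ) - (p.1.val : ℚ)) + ((t.val : ℚ) - (s.val : ℚ)))) := by
  unfold V Tm
  rw [Finset.prod_filter, Finset.prod_filter]
  rw [Fintype.prod_prod_type, Fintype.prod_prod_type]
  rw [← Equiv.prod_comp (finProdFinEquiv : Fin n × Fin k ≃ Fin (n * k)), Fintype.prod_prod_type]
  refine Finset.prod_congr rfl ?_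
  intro i _
  have h1 : ∀ s : Fin k, (∏ y : Fin (n * k),
      if (finProdFinEquiv (i, s) : Fin (n * k)) < y ∧ y.val < m * k then
        (yv (Bl k w) y - yv (Bl k w) (finProdFinEquiv (i, s))) /
          ((y.val : ℚ) - ((finProdFinEquiv (i, s) : Fin (n * k)).val : ℚ)) else 1) =
      ∏ j : Fin n, ∏ t : Fin k,
        if (finProdFinEquiv (i, s) : Fin (n * k)) < finProdFinEquiv (j, t) ∧
            (finProdFinEquiv (j, t) : Fin (n * k)).val < m * k then
          (yv (Bl k w) (finProdFinEquiv (j, t)) - yv (Bl k w) (finProdFinEquiv (i, s))) /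
            (((finProdFinEquiv (j, t) : Fin (n * k)).val : ℚ) -
              ((finProdFinEquiv (i, s) : Fin (n * k)).val : ℚ)) else 1 := by
    intro s
    rw [← Equiv.prod_comp (finProdFinEquiv : Fin n × Fin k ≃ Fin (n * k)),
      Fintype.prod_prod_type]
  rw [Finset.prod_congr rfl (fun s _ => h1 s), Finset.prod_comm]
  refine Finset.prod_congr rfl ?_
  intro j _
  have hval : ∀ (q : Fin n) (t : Fin k), yv (Bl k w) (finProdFinEquiv (q, t)) =
      (t.val : ℚ) + k * yv w q := by
    intro q t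
    unfold yv
    rw [Bl_apply, val_fp]
    push_cast; ring
  by_cases hc : i < j ∧ j.val < m
  · rw [if_pos hc]
    refine Finset.prod_congr rfl ?_
    intro s _
    refine Finset.prod_congr rfl ?_
    intro t _
    rw [if_pos ⟨(lt_iff i j s t).mpr (Or.inl hc.1), (val_lt_iff j t).mpr hc.2⟩, hval, hval,
      val_fp, val_fp]
    push_cast
    congr 1 <;> ring
  · rw [if_neg hc]
    refine Finset.prod_eq_one ?_
    intro s _
    refine Finset.prod_eq_one ?_
    intro t _
    by_cases hc2 : (finProdFinEquiv (i, s) : Fin (n * k)) < finProdFinEquiv (j, t) ∧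
            (finProdFinEquiv (j, t) : Fin (n * k)).val < m * k
    · rw [if_pos hc2]
      have h3 := (lt_iff i j s t).mp hc2.1
      have h4 := (val_lt_iff j t).mp hc2.2
      rcases h3 with h3 | ⟨h3, h5⟩
      · exact absurd ⟨h3, h4⟩ hc
      · subst h3
        rw [hval, hval, val_fp, val_fp]
        push_cast
        have h6 : (t.val : ℚ) - (s.val : ℚ) ≠ 0 := by
          rw [sub_ne_zero]
          intro h7
          have h8 : t.val = s.val := by exact_mod_cast h7
          have := Fin.lt_def.mp h5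
          omega
        have e1 : ((t.val : ℚ) + k * yv w i - (s.val + k * yv w i)) = t.val - s.val := by ring
        have e2 : ((t.val : ℚ) + k * i.val - (s.val + k * i.val)) = t.val - s.val := by ring
        rw [e1, e2, div_self h6]
    · rw [if_neg hc2]

/-- The values grow at least as fast as the positions. -/
theorem gap {m : ℕ} {w : Equiv.Perm (Fin n)} (hw : Gr m w) : ∀ (d : ℕ) (i j : Fin n),
    j.val = i.val + d → j.val < m → (w i).val + d ≤ (w j).val := by
  intro d
  induction d with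
  | zero =>
    intro i j h _
    have : i = j := Fin.ext (by omega)
    subst this; simp
  | succ d ih =>
    intro i j h hj
    have hlt : i.val + d < n := by have := j.isLt; omega
    have h1 := ih i ⟨i.val + d, hlt⟩ rfl (by simp; omega)
    have h2 := Gr_lt hw (i := ⟨i.val + d, hlt⟩) (j := j) (by rw [Fin.lt_def]; simp; omega) hj
    have h3 := Fin.lt_def.mp h2
    omega

theorem block_ineq (k : ℕ) {D E : ℚ} (hE : 1 ≤ E) (hD : E ≤ D) :
    (D / E) ^ (k ^ 2) ≤ ∏ s : Fin k, ∏ t : Fin k,
      (((k : ℚ) * D + ((t.val : ℚ) - (s.val : ℚ))) /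
        ((k : ℚ) * E + ((t.val : ℚ) - (s.val : ℚ)))) := by
  set r : Fin k → Fin k → ℚ := fun s t => (((k : ℚ) * D + ((t.val : ℚ) - (s.val : ℚ))) /
        ((k : ℚ) * E + ((t.val : ℚ) - (s.val : ℚ)))) with hr
  have hpos : ∀ s t : Fin k, 0 < (k : ℚ) * E + ((t.val : ℚ) - (s.val : ℚ)) := by
    intro s t
    have h1 : (s.val : ℚ) < k := by exact_mod_cast s.isLt
    have h2 : (0 : ℚ) ≤ t.val := by positivity
    have h3 : (k : ℚ) ≤ k * E := by nlinarith [(Nat.cast_nonneg k : (0 : ℚ) ≤ k)]
    linarith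
  have hpos2 : ∀ s t : Fin k, 0 < (k : ℚ) * D + ((t.val : ℚ) - (s.val : ℚ)) := by
    intro s t
    have h1 := hpos s t
    have h3 : (k : ℚ) * E ≤ k * D := mul_le_mul_of_nonneg_left hD (Nat.cast_nonneg k)
    linarith
  have hrpos : ∀ s t, 0 < r s t := fun s t => div_pos (hpos2 s t) (hpos s t)
  have hE0 : 0 < E := by linarith
  have hD0 : 0 < D := by linarith
  have hA0 : 0 ≤ ∏ s : Fin k, ∏ t : Fin k, r s t :=
    Finset.prod_nonneg fun s _ => Finset.prod_nonneg fun t _ => (hrpos s t).le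
  have hsq : (∏ s : Fin k, ∏ t : Fin k, r s t) ^ 2 =
      ∏ s : Fin k, ∏ t : Fin k, (r s t * r t s) := by
    rw [sq]
    nth_rewrite 2 [Finset.prod_comm]
    rw [← Finset.prod_mul_distrib]
    refine Finset.prod_congr rfl ?_
    intro s _
    rw [← Finset.prod_mul_distrib]
  have hle : ((D / E) ^ (k ^ 2)) ^ 2 ≤ (∏ s : Fin k, ∏ t : Fin k, r s t) ^ 2 := by
    rw [hsq]
    have e : ((D / E) ^ (k ^ 2)) ^ 2 = ∏ _s : Fin k, ∏ _t : Fin k, (D / E) ^ 2 := by
      simp only [Finset.prod_const, Finset.card_univ, Fintype.card_fin]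
      rw [← pow_mul, ← pow_mul, ← pow_mul]
      congr 1; ring
    rw [e]
    refine Finset.prod_le_prod (fun s _ => by positivity) fun s _ => ?_
    refine Finset.prod_le_prod (fun t _ => by positivity) fun t _ => ?_
    rw [hr]
    simp only
    rw [div_mul_div_comm, div_pow, div_le_div_iff₀ (by positivity) (mul_pos (hpos s t) (hpos t s))]
    have hDE : E ^ 2 ≤ D ^ 2 := pow_le_pow_left₀ hE0.le hD 2
    nlinarith [mul_nonneg (sub_nonneg.mpr hDE) (sq_nonneg ((t.val : ℚ) - (s.val : ℚ)))]
  exact (pow_le_pow_iff_left₀ (by positivity) hA0 (by norm_num)).mp hle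

theorem V_Bl_ge {m : ℕ} (k : ℕ) {w : Equiv.Perm (Fin n)} (hw : Gr m w) :
    V m w ^ (k ^ 2) ≤ V (m * k) (Bl k w) := by
  rw [V_Bl]
  unfold V
  rw [← Finset.prod_pow]
  refine Finset.prod_le_prod ?_ ?_
  · intro p hp
    unfold Tm at hp
    rw [Finset.mem_filter] at hp
    have h1 := Fin.lt_def.mp hp.2.1
    have h2 := Fin.lt_def.mp (Gr_lt hw hp.2.1 hp.2.2)
    have h3 : (0 : ℚ) ≤ (p.2.val : ℚ) - p.1.val := by
      rw [sub_nonneg]; exact_mod_cast h1.le
    have h4 : (0 : ℚ) ≤ yv w p.2 - yv w p.1 := by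
      unfold yv
      rw [sub_nonneg]; exact_mod_cast h2.le
    exact pow_nonneg (div_nonneg h4 h3) _
  · intro p hp
    unfold Tm at hp
    rw [Finset.mem_filter] at hp
    have h1 := Fin.lt_def.mp hp.2.1
    refine block_ineq k ?_ ?_
    · have : (p.1.val : ℚ) + 1 ≤ p.2.val := by exact_mod_cast h1
      linarith
    · have h2 := gap hw (p.2.val - p.1.val) p.1 p.2 (by omega) hp.2.2
      have h3 : (w p.1).val + p.2.val ≤ (w p.2).val + p.1.val := by omega
      have h4 : ((w p.1).val : ℚ) + p.2.val ≤ (w p.2).val + p.1.val := by exact_mod_cast h3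
      unfold yv
      linarith

end Pool.Agent.Work.MP_ca14f8_co
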