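import Pool.Agent.Work.MP_ca14f8_co.Basic

/-!
The principal evaluation `Ups`, its recursion, direct sums and inverses, for MP_ca14f8_co.
-/

set_option autoImplicit false
open Classical

namespace Pool.Agent.Work.MP_ca14f8_co

variable {n : ℕ}

/-- The principal evaluation (Macdonald's formula). -/
noncomputable def Ups (w : Equiv.Perm (Fin n)) : ℚ :=
  N (inv w).card w / ((inv w).card.factorial : ℚ)

theorem N_nonneg (L : ℕ) (w : Equiv.Perm (Fin n)) : 0 ≤ N L w := by
  unfold N
  refine Finset.sum_nonneg ?_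
  intro a _
  refine Finset.prod_nonneg ?_
  intro i _
  positivity

theorem Ups_nonneg (w : Equiv.Perm (Fin n)) : 0 ≤ Ups w := by
  unfold Ups
  exact div_nonneg (N_nonneg _ _) (by positivity)

/-- The descents of the inverse. -/
def Desc (w : Equiv.Perm (Fin n)) : Finset (Fin n × Fin n) :=
  Finset.univ.filter (fun p => p.2.val = p.1.val + 1 ∧ w.symm p.2 < w.symm p.1)

theorem mem_Desc (w : Equiv.Perm (Fin n)) (p : Fin n × Fin n) :
    p ∈ Desc w ↔ p.2.val = p.1.val + 1 ∧ w.symm p.2 < w.symm p.1 := by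
  simp [Desc]

theorem N_rec (L : ℕ) (w : Equiv.Perm (Fin n)) (hL : (inv w).card = L + 1) :
    N (L + 1) w = ∑ p ∈ Desc w, ((p.1.val : ℚ) + 1) * N L (Equiv.swap p.1 p.2 * w) := by
  rw [N_succ]
  symm
  refine Finset.sum_subset ?_ ?_
  · intro p hp
    rw [mem_Desc] at hp
    rw [Finset.mem_filter]
    exact ⟨Finset.mem_univ _, hp.1⟩
  · intro p hp hp2
    rw [Finset.mem_filter] at hp
    rw [mem_Desc] at hp2
    have h2 : w.symm p.1 < w.symm p.2 := by
      rcases lt_trichotomy (w.symm p.1) (w.symm p.2) with h | h | h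
      · exact h
      · exfalso
        have := w.symm.injective h
        have h3 := hp.2
        rw [this] at h3
        omega
      · exact absurd ⟨hp.2, h⟩ hp2
    rw [N_eq_zero, mul_zero]
    rw [card_inv_up w hp.2 h2]
    omega

theorem Ups_rec (w : Equiv.Perm (Fin n)) :
    ((inv w).card : ℚ) * Ups w =
      ∑ p ∈ Desc w, ((p.1.val : ℚ) + 1) * Ups (Equiv.swap p.1 p.2 * w) := by
  rcases Nat.eq_zero_or_pos (inv w).card with h0 | h0
  · have : Desc w = ∅ := by
      rw [Finset.eq_empty_iff_forall_notMem]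
      intro p hp
      rw [mem_Desc] at hp
      have := card_inv_down w hp.1 hp.2
      omega
    rw [this, h0]
    simp
  · obtain ⟨L, hL⟩ : ∃ L, (inv w).card = L + 1 := ⟨(inv w).card - 1, by omega⟩
    have h1 : Ups w = N (L + 1) w / ((L + 1).factorial : ℚ) := by
      unfold Ups; rw [hL]
    rw [h1, N_rec L w hL, hL, Nat.factorial_succ]
    have h2 : ∀ p ∈ Desc w, ((p.1.val : ℚ) + 1) * Ups (Equiv.swap p.1 p.2 * w) =
        (((p.1.val : ℚ) + 1) * N L (Equiv.swap p.1 p.2 * w)) / (L.factorial : ℚ) := by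
      intro p hp
      rw [mem_Desc] at hp
      have h3 := card_inv_down w hp.1 hp.2
      have h4 : (inv (Equiv.swap p.1 p.2 * w)).card = L := by omega
      unfold Ups
      rw [h4]
      ring
    rw [Finset.sum_congr rfl h2, ← Finset.sum_div]
    have h5 : (L.factorial : ℚ) ≠ 0 := by positivity
    have h6 : ((L : ℚ) + 1) ≠ 0 := by positivity
    push_cast
    field_simp

theorem inv_one : inv (1 : Equiv.Perm (Fin n)) = ∅ := by
  rw [Finset.eq_empty_iff_forall_notMem]
  intro p hp
  rw [mem_inv] at hp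
  simp at hp
  exact absurd hp.1 (not_lt.mpr hp.2.le)

theorem Ups_one : Ups (1 : Equiv.Perm (Fin n)) = 1 := by
  unfold Ups
  rw [inv_one, Finset.card_empty, N_zero, if_pos rfl]
  simp

theorem eq_one_of_inv {w : Equiv.Perm (Fin n)} (h : (inv w).card = 0) : w = 1 := by
  rw [Finset.card_eq_zero] at h
  have hmono : StrictMono w := by
    intro i j hij
    rcases lt_trichotomy (w i) (w j) with h1 | h1 | h1
    · exact h1
    · exact absurd (w.injective h1) hij.ne
    · exfalso
      have : (i, j) ∈ inv w := by rw [mem_inv]; exact ⟨hij, h1⟩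
      rw [h] at this
      exact absurd this (Finset.notMem_empty _)
  have e : (hmono.orderIsoOfSurjective w w.surjective) = OrderIso.refl (Fin n) :=
    Subsingleton.elim _ _
  ext x
  have := congrArg (fun f : Fin n ≃o Fin n => (f x).val) e
  simpa using this

/-! ### Direct sums -/

/-- `u` fixes the positions `≥ c`. -/
def Lo (c : ℕ) (u : Equiv.Perm (Fin n)) : Prop := ∀ i, c ≤ i.val → u i = i

/-- `v` fixes the positions `< c`. -/
def Hi (c : ℕ) (v : Equiv.Perm (Fin n)) : Prop := ∀ i, i.val < c → v i = i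

theorem Lo.symm_apply {c : ℕ} {u : Equiv.Perm (Fin n)} (hu : Lo c u) (i : Fin n)
    (hi : c ≤ i.val) : u.symm i = i := by
  rw [Equiv.symm_apply_eq]; exact (hu i hi).symm

theorem Hi.symm_apply {c : ℕ} {u : Equiv.Perm (Fin n)} (hu : Hi c u) (i : Fin n)
    (hi : i.val < c) : u.symm i = i := by
  rw [Equiv.symm_apply_eq]; exact (hu i hi).symm

theorem Lo.symm_lt {c : ℕ} {u : Equiv.Perm (Fin n)} (hu : Lo c u) (i : Fin n)
    (hi : i.val < c) : (u.symm i).val < c := by
  by_contra h
  have h1 := hu (u.symm i) (not_lt.mp h)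
  rw [Equiv.apply_symm_apply] at h1
  rw [← h1] at h
  exact h hi

theorem Hi.symm_le {c : ℕ} {u : Equiv.Perm (Fin n)} (hu : Hi c u) (i : Fin n)
    (hi : c ≤ i.val) : c ≤ (u.symm i).val := by
  by_contra h
  have h1 := hu (u.symm i) (not_le.mp h)
  rw [Equiv.apply_symm_apply] at h1
  rw [← h1] at h
  exact h hi

theorem Lo.lt {c : ℕ} {u : Equiv.Perm (Fin n)} (hu : Lo c u) (i : Fin n)
    (hi : i.val < c) : (u i).val < c := by
  by_contra h
  have h1 := hu (u i) (not_lt.mp h)
  have h2 := u.injective h1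
  rw [h2] at h
  exact h hi

theorem Hi.le {c : ℕ} {u : Equiv.Perm (Fin n)} (hu : Hi c u) (i : Fin n)
    (hi : c ≤ i.val) : c ≤ (u i).val := by
  by_contra h
  have h1 := hu (u i) (not_le.mp h)
  have h2 := u.injective h1
  rw [h2] at h
  exact h hi

theorem mul_symm_lo {c : ℕ} {u v : Equiv.Perm (Fin n)} (hu : Lo c u) (hv : Hi c v) (i : Fin n)
    (hi : i.val < c) : (u * v).symm i = u.symm i := by
  have : (u * v).symm i = v.symm (u.symm i) := by simp [Equiv.Perm.mul_def]
  rw [this, hv.symm_apply _ (hu.symm_lt i hi)]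

theorem mul_symm_hi {c : ℕ} {u v : Equiv.Perm (Fin n)} (hu : Lo c u) (_hv : Hi c v) (i : Fin n)
    (hi : c ≤ i.val) : (u * v).symm i = v.symm i := by
  have : (u * v).symm i = v.symm (u.symm i) := by simp [Equiv.Perm.mul_def]
  rw [this, hu.symm_apply _ hi]

theorem mul_lo {c : ℕ} {u v : Equiv.Perm (Fin n)} (_hu : Lo c u) (hv : Hi c v) (i : Fin n)
    (hi : i.val < c) : (u * v) i = u i := by
  rw [Equiv.Perm.mul_apply, hv i hi]

theorem mul_hi {c : ℕ} {u v : Equiv.Perm (Fin n)} (hu : Lo c u) (hv : Hi c v) (i : Fin n)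
    (hi : c ≤ i.val) : (u * v) i = v i := by
  rw [Equiv.Perm.mul_apply, hu _ (hv.le i hi)]

theorem Lo.desc {c : ℕ} {u : Equiv.Perm (Fin n)} (hu : Lo c u) {p : Fin n × Fin n}
    (hp : p ∈ Desc u) : p.2.val < c := by
  rw [mem_Desc] at hp
  by_contra h
  have h1 := hu.symm_apply p.2 (not_lt.mp h)
  rw [h1] at hp
  have h2 := Fin.lt_def.mp hp.2
  by_cases h3 : p.1.val < c
  · have := hu.symm_lt p.1 h3
    omega
  · have := hu.symm_apply p.1 (not_lt.mp h3)
    rw [this] at h2
    omega

theorem Hi.desc {c : ℕ} {u : Equiv.Perm (Fin n)} (hu : Hi c u) {p : Fin n × Fin n}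
    (hp : p ∈ Desc u) : c ≤ p.1.val := by
  rw [mem_Desc] at hp
  by_contra h
  have h1 := hu.symm_apply p.1 (not_le.mp h)
  rw [h1] at hp
  have h2 := Fin.lt_def.mp hp.2
  by_cases h3 : p.2.val < c
  · have := hu.symm_apply p.2 h3
    rw [this] at h2
    omega
  · have := hu.symm_le p.2 (not_lt.mp h3)
    omega

theorem Desc_mul {c : ℕ} {u v : Equiv.Perm (Fin n)} (hu : Lo c u) (hv : Hi c v) :
    Desc (u * v) = Desc u ∪ Desc v := by
  ext p
  rw [Finset.mem_union]
  constructor
  · intro hp
    rw [mem_Desc] at hp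
    by_cases h1 : p.2.val < c
    · left
      rw [mem_Desc, ← mul_symm_lo hu hv p.2 h1, ← mul_symm_lo hu hv p.1 (by omega)]
      exact hp
    · by_cases h2 : c ≤ p.1.val
      · right
        rw [mem_Desc, ← mul_symm_hi hu hv p.2 (by omega), ← mul_symm_hi hu hv p.1 h2]
        exact hp
      · exfalso
        have h3 := Fin.lt_def.mp hp.2
        rw [mul_symm_hi hu hv p.2 (by omega), mul_symm_lo hu hv p.1 (by omega)] at h3
        have h4 := hv.symm_le p.2 (by omega)
        have h5 := hu.symm_lt p.1 (by omega)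
        omega
  · rintro (hp | hp)
    · have h1 := hu.desc hp
      rw [mem_Desc] at hp
      rw [mem_Desc, mul_symm_lo hu hv p.2 h1, mul_symm_lo hu hv p.1 (by omega)]
      exact hp
    · have h1 := hv.desc hp
      rw [mem_Desc] at hp
      rw [mem_Desc, mul_symm_hi hu hv p.2 (by omega), mul_symm_hi hu hv p.1 h1]
      exact hp

theorem card_inv_mul {c : ℕ} {u v : Equiv.Perm (Fin n)} (hu : Lo c u) (hv : Hi c v) :
    (inv (u * v)).card = (inv u).card + (inv v).card := by
  have h1 : ∀ p ∈ inv u, p.2.val < c := by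
    intro p hp
    rw [mem_inv] at hp
    by_contra h
    have h2 := hu p.2 (not_lt.mp h)
    rw [h2] at hp
    have h3 := Fin.lt_def.mp hp.1
    have h4 := Fin.lt_def.mp hp.2
    by_cases h5 : p.1.val < c
    · have := hu.lt p.1 h5
      omega
    · have := hu p.1 (not_lt.mp h5)
      rw [this] at h4
      omega
  have h2 : ∀ p ∈ inv v, c ≤ p.1.val := by
    intro p hp
    rw [mem_inv] at hp
    by_contra h
    have h2 := hv p.1 (not_le.mp h)
    rw [h2] at hp
    have h3 := Fin.lt_def.mp hp.1
    have h4 := Fin.lt_def.mp hp.2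
    by_cases h5 : p.2.val < c
    · have := hv p.2 h5
      rw [this] at h4
      omega
    · have := hv.le p.2 (not_lt.mp h5)
      omega
  rw [← Finset.card_union_of_disjoint]
  · congr 1
    ext p
    rw [Finset.mem_union]
    constructor
    · intro hp
      rw [mem_inv] at hp
      have h3 := Fin.lt_def.mp hp.1
      by_cases h4 : p.2.val < c
      · left
        rw [mem_inv, ← mul_lo hu hv p.2 h4, ← mul_lo hu hv p.1 (by omega)]
        exact hp
      · by_cases h5 : c ≤ p.1.val
        · right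
          rw [mem_inv, ← mul_hi hu hv p.2 (by omega), ← mul_hi hu hv p.1 h5]
          exact hp
        · exfalso
          have h6 := Fin.lt_def.mp hp.2
          rw [mul_hi hu hv p.2 (by omega), mul_lo hu hv p.1 (by omega)] at h6
          have h7 := hv.le p.2 (by omega)
          have h8 := hu.lt p.1 (by omega)
          omega
    · rintro (hp | hp)
      · have h4 := h1 p hp
        rw [mem_inv] at hp
        have h3 := Fin.lt_def.mp hp.1
        rw [mem_inv, mul_lo hu hv p.2 h4, mul_lo hu hv p.1 (by omega)]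
        exact hp
      · have h4 := h2 p hp
        rw [mem_inv] at hp
        have h3 := Fin.lt_def.mp hp.1
        rw [mem_inv, mul_hi hu hv p.2 (by omega), mul_hi hu hv p.1 h4]
        exact hp
  · rw [Finset.disjoint_left]
    intro p hp hq
    have h3 := h1 p hp
    have h4 := h2 p hq
    rw [mem_inv] at hp
    have h5 := Fin.lt_def.mp hp.1
    omega

theorem Ups_mul {c : ℕ} : ∀ (L : ℕ) (u v : Equiv.Perm (Fin n)), Lo c u → Hi c v →
    (inv (u * v)).card = L → Ups (u * v) = Ups u * Ups v := by
  intro L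
  induction L with
  | zero =>
    intro u v hu hv hL
    rw [card_inv_mul hu hv] at hL
    rw [eq_one_of_inv (w := u) (by omega), eq_one_of_inv (w := v) (by omega), mul_one, Ups_one,
      mul_one]
  | succ L ih =>
    intro u v hu hv hL
    have h1 := Ups_rec (u * v)
    rw [Desc_mul hu hv, Finset.sum_union] at h1
    · have h2 : ∑ p ∈ Desc u, ((p.1.val : ℚ) + 1) * Ups (Equiv.swap p.1 p.2 * (u * v)) =
          (∑ p ∈ Desc u, ((p.1.val : ℚ) + 1) * Ups (Equiv.swap p.1 p.2 * u)) * Ups v := by
        rw [Finset.sum_mul]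
        refine Finset.sum_congr rfl ?_
        intro p hp
        have h3 := hu.desc hp
        have h4 := (mem_Desc u p).mp hp
        rw [← mul_assoc, ih (Equiv.swap p.1 p.2 * u) v _ hv, mul_assoc]
        · have h5 : p ∈ Desc (u * v) := by
            rw [Desc_mul hu hv, Finset.mem_union]; exact Or.inl hp
          rw [mem_Desc] at h5
          have h6 := card_inv_down (u * v) h5.1 h5.2
          rw [← mul_assoc] at h6
          omega
        · intro i hi
          rw [Equiv.Perm.mul_apply, hu i hi]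
          apply Equiv.swap_apply_of_ne_of_ne
          · intro h; rw [h] at hi; omega
          · intro h; rw [h] at hi; omega
      have h3 : ∑ p ∈ Desc v, ((p.1.val : ℚ) + 1) * Ups (Equiv.swap p.1 p.2 * (u * v)) =
          Ups u * (∑ p ∈ Desc v, ((p.1.val : ℚ) + 1) * Ups (Equiv.swap p.1 p.2 * v)) := by
        rw [Finset.mul_sum]
        refine Finset.sum_congr rfl ?_
        intro p hp
        have h3 := hv.desc hp
        have h4 := (mem_Desc v p).mp hp
        have h7 : Equiv.swap p.1 p.2 * u = u * Equiv.swap p.1 p.2 := by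
          have h8 : u * Equiv.swap p.1 p.2 * u⁻¹ = Equiv.swap (u p.1) (u p.2) := by
            rw [Equiv.swap_apply_apply]
          rw [hu p.1 h3, hu p.2 (by omega)] at h8
          rw [mul_inv_eq_iff_eq_mul] at h8
          exact h8.symm
        rw [← mul_assoc, h7, mul_assoc, ih u (Equiv.swap p.1 p.2 * v) hu]
        · ring
        · intro i hi
          rw [Equiv.Perm.mul_apply, hv i hi]
          apply Equiv.swap_apply_of_ne_of_ne
          · intro h; rw [h] at hi; omega
          · intro h; rw [h] at hi; omega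
        · have h5 : p ∈ Desc (u * v) := by
            rw [Desc_mul hu hv, Finset.mem_union]; exact Or.inr hp
          rw [mem_Desc] at h5
          have h6 := card_inv_down (u * v) h5.1 h5.2
          rw [← mul_assoc, h7, mul_assoc] at h6
          omega
      rw [h2, h3, ← Ups_rec u, ← Ups_rec v, card_inv_mul hu hv] at h1
      rw [card_inv_mul hu hv] at hL
      have h4 : (((inv u).card : ℚ) + (inv v).card) ≠ 0 := by
        have : ((inv u).card : ℚ) + (inv v).card = (L : ℚ) + 1 := by exact_mod_cast hL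
        rw [this]; positivity
      push_cast at h1
      have h5 : (((inv u).card : ℚ) + (inv v).card) * Ups (u * v) =
          (((inv u).card : ℚ) + (inv v).card) * (Ups u * Ups v) := by
        rw [h1]; ring
      exact mul_left_cancel₀ h4 h5
    · rw [Finset.disjoint_left]
      intro p hp hq
      have h3 := hu.desc hp
      have h4 := hv.desc hq
      rw [mem_Desc] at hp
      omega

/-! ### Inverses -/

theorem card_inv_inverse (w : Equiv.Perm (Fin n)) : (inv w⁻¹).card = (inv w).card := by
  refine Finset.card_bij' (fun p _ => (w⁻¹ p.2, w⁻¹ p.1)) (fun p _ => (w p.2, w p.1)) ?_ ?_ ?_ ?_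
  · intro p hp
    rw [mem_inv] at hp ⊢
    simpa using ⟨hp.2, hp.1⟩
  · intro p hp
    rw [mem_inv] at hp ⊢
    simpa using ⟨hp.2, hp.1⟩
  · intro p _; simp
  · intro p _; simp

theorem ofFn_rev {α : Type*} (L : ℕ) (f : Fin L → α) :
    List.ofFn (fun i => f (Fin.rev i)) = (List.ofFn f).reverse := by
  apply List.ext_getElem
  · simp
  · intro i h1 h2
    simp only [List.getElem_ofFn, List.getElem_reverse, List.length_ofFn]
    congr 1
    apply Fin.ext
    simp only [Fin.val_rev]
    omega

theorem ofFn_rev_prod (L : ℕ) (a : Fin L → Fin n × Fin n) :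
    (List.ofFn (fun i => Equiv.swap (a (Fin.rev i)).1 (a (Fin.rev i)).2)).prod =
      ((List.ofFn (fun i => Equiv.swap (a i).1 (a i).2)).prod)⁻¹ := by
  rw [List.prod_inv_reverse]
  congr 1
  rw [List.map_ofFn]
  have : (List.ofFn (fun i => Equiv.swap (a (Fin.rev i)).1 (a (Fin.rev i)).2)) =
      (List.ofFn (fun i => Equiv.swap (a i).1 (a i).2)).reverse := by
    rw [← ofFn_rev L (fun i => Equiv.swap (a i).1 (a i).2)]
  rw [this]
  congr 2

theorem N_inverse (L : ℕ) (w : Equiv.Perm (Fin n)) : N L w⁻¹ = N L w := by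
  unfold N
  refine Finset.sum_bij' (fun a _ => fun i => a (Fin.rev i)) (fun a _ => fun i => a (Fin.rev i))
    ?_ ?_ ?_ ?_ ?_
  · intro a ha
    rw [Finset.mem_filter] at ha ⊢
    refine ⟨Finset.mem_univ _, fun i => ha.2.1 _, ?_⟩
    rw [ofFn_rev_prod, ha.2.2, inv_inv]
  · intro a ha
    rw [Finset.mem_filter] at ha ⊢
    refine ⟨Finset.mem_univ _, fun i => ha.2.1 _, ?_⟩
    rw [ofFn_rev_prod, ha.2.2]
  · intro a _; funext i; simp
  · intro a _; funext i; simp
  · intro a _
    rw [← Equiv.prod_comp (Fin.revPerm) (fun i => (((a i).1.val : ℚ) + 1))]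
    rfl

theorem Ups_inverse (w : Equiv.Perm (Fin n)) : Ups w⁻¹ = Ups w := by
  unfold Ups
  rw [card_inv_inverse, N_inverse]

end Pool.Agent.Work.MP_ca14f8_co
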