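import Mathlib

/-!
Macdonald sums, elementary length facts, for MP_ca14f8_co.
-/

set_option autoImplicit false
open Classical

namespace Pool.Agent.Work.MP_ca14f8_co

/-- The set of inversions of a permutation. -/
noncomputable def inv {n : ℕ} (w : Equiv.Perm (Fin n)) : Finset (Fin n × Fin n) :=
  (Finset.univ : Finset (Fin n × Fin n)).filter (fun p => p.1 < p.2 ∧ w p.2 < w p.1)

/-- Weighted number of words of length `L` in the adjacent transpositions with product `w`. -/
noncomputable def N {n : ℕ} (L : ℕ) (w : Equiv.Perm (Fin n)) : ℚ :=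
  ∑ a ∈ (Finset.univ : Finset (Fin L → Fin n × Fin n)).filter
     (fun a => (∀ i, (a i).2.val = (a i).1.val + 1) ∧
       (List.ofFn (fun i => Equiv.swap (a i).1 (a i).2)).prod = w),
    ∏ i, (((a i).1.val : ℚ) + 1)

theorem mem_inv {n : ℕ} (w : Equiv.Perm (Fin n)) (p : Fin n × Fin n) :
    p ∈ inv w ↔ p.1 < p.2 ∧ w p.2 < w p.1 := by
  simp [inv]

theorem swap_mul_eq_iff {n : ℕ} (a b : Fin n) (u w : Equiv.Perm (Fin n)) :
    Equiv.swap a b * u = w ↔ u = Equiv.swap a b * w := by
  constructor
  · rintro rfl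
    rw [← mul_assoc, Equiv.swap_mul_self, one_mul]
  · rintro rfl
    rw [← mul_assoc, Equiv.swap_mul_self, one_mul]

theorem N_zero {n : ℕ} (w : Equiv.Perm (Fin n)) : N 0 w = if w = 1 then 1 else 0 := by
  unfold N
  rw [Finset.sum_filter]
  simp [eq_comm]

theorem N_succ {n : ℕ} (L : ℕ) (w : Equiv.Perm (Fin n)) :
    N (L + 1) w = ∑ p ∈ (Finset.univ : Finset (Fin n × Fin n)).filter
      (fun p => p.2.val = p.1.val + 1),
        ((p.1.val : ℚ) + 1) * N L (Equiv.swap p.1 p.2 * w) := by
  unfold N
  rw [Finset.sum_filter, Finset.sum_filter]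
  rw [← (Fin.consEquiv (fun _ : Fin (L + 1) => Fin n × Fin n)).sum_comp]
  rw [Fintype.sum_prod_type]
  refine Finset.sum_congr rfl ?_
  intro p _
  by_cases hp : p.2.val = p.1.val + 1
  · rw [if_pos hp, Finset.sum_filter, Finset.mul_sum]
    refine Finset.sum_congr rfl ?_
    intro a _
    simp only [Fin.consEquiv_apply, Fin.forall_fin_succ, Fin.cons_zero, Fin.cons_succ,
      List.ofFn_succ, List.prod_cons, Fin.prod_univ_succ, swap_mul_eq_iff]
    by_cases h2 : (∀ i, (a i).2.val = (a i).1.val + 1) ∧
      (List.ofFn (fun i => Equiv.swap (a i).1 (a i).2)).prod = Equiv.swap p.1 p.2 * w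
    · rw [if_pos h2, if_pos ⟨⟨hp, h2.1⟩, h2.2⟩]
    · rw [if_neg h2, mul_zero, if_neg]
      rintro ⟨⟨_, h3⟩, h4⟩
      exact h2 ⟨h3, h4⟩
  · rw [if_neg hp]
    refine Finset.sum_eq_zero ?_
    intro a _
    rw [if_neg]
    rintro ⟨h, _⟩
    have := h 0
    simp [Fin.consEquiv_apply] at this
    exact hp this

/-- adjacent transposition preserves order except on the two values. -/
theorem swap_lt_swap {n : ℕ} {a b : Fin n} (hab : b.val = a.val + 1) {x y : Fin n}
    (hxy : x < y) (hne : ¬ (x = a ∧ y = b)) : Equiv.swap a b x < Equiv.swap a b y := by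
  have hab' : a < b := by rw [Fin.lt_def]; omega
  rw [Equiv.swap_apply_def, Equiv.swap_apply_def]
  rw [Fin.lt_def] at hxy ⊢
  split_ifs with h1 h2 h3 h4 h5 h6 h7 h8
  · subst h1; subst h2; omega
  · exact absurd ⟨h1, h3⟩ hne
  · subst h1
    have : y.val ≠ b.val := fun h => h3 (Fin.ext h)
    omega
  · subst h4; subst h5; omega
  · subst h4; subst h6; omega
  · subst h4; omega
  · subst h7
    have : x.val ≠ b.val := fun h => h4 (Fin.ext h)
    omega
  · subst h8
    have : x.val ≠ a.val := fun h => h1 (Fin.ext h)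
    omega
  · exact hxy

theorem card_inv_le {n : ℕ} (w : Equiv.Perm (Fin n)) {a b : Fin n} (hab : b.val = a.val + 1) :
    (inv w).card ≤ (inv (Equiv.swap a b * w)).card + 1 := by
  have hsub : inv w ⊆ insert (w.symm b, w.symm a) (inv (Equiv.swap a b * w)) := by
    intro p hp
    rw [mem_inv] at hp
    rw [Finset.mem_insert, mem_inv]
    by_cases h : w p.2 = a ∧ w p.1 = b
    · left
      ext1
      · rw [← h.2]; simp
      · rw [← h.1]; simp
    · right
      refine ⟨hp.1, ?_⟩
      simpa using swap_lt_swap hab hp.2 h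
  refine (Finset.card_le_card hsub).trans (Finset.card_insert_le _ _)

/-- `a` before `b = a+1`: multiplying adds one inversion. -/
theorem inv_up {n : ℕ} (w : Equiv.Perm (Fin n)) {a b : Fin n} (hab : b.val = a.val + 1)
    (h : w.symm a < w.symm b) :
    inv (Equiv.swap a b * w) = insert (w.symm a, w.symm b) (inv w) := by
    have hab' : a < b := by rw [Fin.lt_def]; omega
    ext p
    rw [Finset.mem_insert, mem_inv, mem_inv]
    constructor
    · rintro ⟨h1, h2⟩
      by_cases h3 : p = (w.symm a, w.symm b)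
      · exact Or.inl h3
      · right
        refine ⟨h1, ?_⟩
        rcases lt_trichotomy (w p.2) (w p.1) with h4 | h4 | h4
        · exact h4
        · exact absurd (w.injective h4).symm h1.ne
        · exfalso
          have h5 : ¬ (w p.1 = a ∧ w p.2 = b) := by
            rintro ⟨h6, h7⟩
            apply h3
            ext1
            · rw [← h6]; simp
            · rw [← h7]; simp
          have h6 := swap_lt_swap hab h4 h5
          simp only [Equiv.Perm.coe_mul, Function.comp_apply] at h2
          exact absurd h2 (not_lt.mpr h6.le)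
    · rintro (rfl | ⟨h1, h2⟩)
      · refine ⟨h, ?_⟩
        simpa using hab'
      · refine ⟨h1, ?_⟩
        have h5 : ¬ (w p.2 = a ∧ w p.1 = b) := by
          rintro ⟨h6, h7⟩
          rw [← h6, ← h7] at h
          simp at h
          exact absurd h1 (not_lt.mpr h.le)
        simpa using swap_lt_swap hab h2 h5

/-- `a` before `b = a+1`: multiplying increases the length. -/
theorem card_inv_up {n : ℕ} (w : Equiv.Perm (Fin n)) {a b : Fin n} (hab : b.val = a.val + 1)
    (h : w.symm a < w.symm b) :
    (inv (Equiv.swap a b * w)).card = (inv w).card + 1 := by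
  have hab' : a < b := by rw [Fin.lt_def]; omega
  rw [inv_up w hab h, Finset.card_insert_of_notMem]
  rw [mem_inv]
  rintro ⟨_, h2⟩
  simp at h2
  exact absurd h2 (not_lt.mpr hab'.le)

theorem symm_swap_mul {n : ℕ} (w : Equiv.Perm (Fin n)) (a b : Fin n) :
    (Equiv.swap a b * w).symm = w.symm * Equiv.swap a b := by
  ext x; simp [Equiv.Perm.mul_def]

theorem card_inv_down {n : ℕ} (w : Equiv.Perm (Fin n)) {a b : Fin n} (hab : b.val = a.val + 1)
    (h : w.symm b < w.symm a) :
    (inv w).card = (inv (Equiv.swap a b * w)).card + 1 := by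
  have h1 := card_inv_up (Equiv.swap a b * w) hab (by
    rw [symm_swap_mul]
    simpa using h)
  rw [← mul_assoc, Equiv.swap_mul_self, one_mul] at h1
  exact h1

theorem inv_down_subset {n : ℕ} (w : Equiv.Perm (Fin n)) {a b : Fin n} (hab : b.val = a.val + 1)
    (h : w.symm b < w.symm a) : inv (Equiv.swap a b * w) ⊆ inv w := by
  have h1 := inv_up (Equiv.swap a b * w) hab (by
    rw [symm_swap_mul]
    simpa using h)
  rw [← mul_assoc, Equiv.swap_mul_self, one_mul] at h1
  rw [h1]
  exact Finset.subset_insert _ _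

theorem N_eq_zero {n : ℕ} (L : ℕ) : ∀ w : Equiv.Perm (Fin n), L < (inv w).card → N L w = 0 := by
  induction L with
  | zero =>
    intro w hw
    rw [N_zero, if_neg]
    rintro rfl
    have : inv (1 : Equiv.Perm (Fin n)) = ∅ := by
      rw [Finset.eq_empty_iff_forall_notMem]
      intro p hp
      rw [mem_inv] at hp
      simp at hp
      exact absurd hp.1 (not_lt.mpr hp.2.le)
    rw [this] at hw
    simp at hw
  | succ L ih =>
    intro w hw
    rw [N_succ]
    refine Finset.sum_eq_zero ?_
    intro p hp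
    rw [Finset.mem_filter] at hp
    rw [ih, mul_zero]
    have := card_inv_le w hp.2
    omega

end Pool.Agent.Work.MP_ca14f8_co
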