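import Mathlib

/-!
A partial fraction identity, for MP_ca14f8_co.
-/

set_option autoImplicit false

namespace Pool.Agent.Work.MP_ca14f8_co

variable {ι : Type*} [DecidableEq ι]

/-- `prod_{i in s} (1 - 1/(z - y i))`. -/
noncomputable def P (s : Finset ι) (y : ι → ℚ) (z : ℚ) : ℚ := ∏ i ∈ s, (1 - 1 / (z - y i))

theorem partial_fractions (s : Finset ι) (y : ι → ℚ) (hy : Set.InjOn y s) :
    ∀ z : ℚ, (∀ i ∈ s, z ≠ y i) →
      P s y z = 1 - ∑ j ∈ s, P (s.erase j) y (y j) / (z - y j) := by
  induction s using Finset.induction_on with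
  | empty => intro z _; simp [P]
  | insert a s ha ih =>
    intro z hz
    have hys : Set.InjOn y s := hy.mono (by simp)
    have hza : z ≠ y a := hz a (Finset.mem_insert_self a s)
    have hzs : ∀ i ∈ s, z ≠ y i := fun i hi => hz i (Finset.mem_insert_of_mem hi)
    have has : ∀ i ∈ s, y a ≠ y i := by
      intro i hi h
      have := hy (by simp) (by simp [hi]) h
      exact ha (this ▸ hi)
    have h1 := ih hys z hzs
    have h2 := ih hys (y a) has
    have hP : P (insert a s) y z = (1 - 1 / (z - y a)) * P s y z := by
      unfold P; rw [Finset.prod_insert ha]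
    rw [hP, Finset.sum_insert ha, Finset.erase_insert ha]
    have h3 : ∑ j ∈ s, P ((insert a s).erase j) y (y j) / (z - y j)
        = ∑ j ∈ s, P (s.erase j) y (y j) / (z - y j)
          - (1 / (z - y a)) * (∑ j ∈ s, P (s.erase j) y (y j) / (z - y j)
            - ∑ j ∈ s, P (s.erase j) y (y j) / (y a - y j)) := by
      rw [← Finset.sum_sub_distrib, Finset.mul_sum, ← Finset.sum_sub_distrib]
      refine Finset.sum_congr rfl ?_
      intro j hj
      have hja : j ≠ a := fun h => ha (h ▸ hj)
      have h4 : P ((insert a s).erase j) y (y j) = (1 - 1 / (y j - y a)) * P (s.erase j) y (y j) := by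
        unfold P
        rw [Finset.erase_insert_of_ne hja.symm, Finset.prod_insert]
        intro h; exact ha (Finset.mem_of_mem_erase h)
      rw [h4]
      have e1 : z - y j ≠ 0 := sub_ne_zero.mpr (hzs j hj)
      have e2 : z - y a ≠ 0 := sub_ne_zero.mpr hza
      have e3 : y a - y j ≠ 0 := sub_ne_zero.mpr (has j hj)
      have e4 : y j - y a ≠ 0 := sub_ne_zero.mpr (has j hj).symm
      have e5 : 1 / (y j - y a) = - (1 / (y a - y j)) := by
        rw [← neg_sub (y a) (y j), one_div_neg_eq_neg_one_div]
      rw [e5]
      field_simp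
      ring
    rw [h3]
    have h5 : ∑ j ∈ s, P (s.erase j) y (y j) / (z - y j) = 1 - P s y z := by rw [h1]; ring
    have h6 : ∑ j ∈ s, P (s.erase j) y (y j) / (y a - y j) = 1 - P s y (y a) := by rw [h2]; ring
    rw [h5, h6]
    ring

theorem sum_P (s : Finset ι) (y : ι → ℚ) (hy : Set.InjOn y s) :
    ∑ j ∈ s, P (s.erase j) y (y j) = (s.card : ℚ) ∧
    ∑ j ∈ s, y j * P (s.erase j) y (y j)
      = ∑ j ∈ s, y j - (s.card : ℚ) * ((s.card : ℚ) - 1) / 2 := by
  induction s using Finset.induction_on with
  | empty => simp
  | insert a s ha ih =>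
    have hys : Set.InjOn y s := hy.mono (by simp)
    have has : ∀ i ∈ s, y a ≠ y i := by
      intro i hi h
      have := hy (by simp) (by simp [hi]) h
      exact ha (this ▸ hi)
    obtain ⟨h1, h2⟩ := ih hys
    have h3 := partial_fractions s y hys (y a) has
    have h4 : ∀ j ∈ s, P ((insert a s).erase j) y (y j)
        = P (s.erase j) y (y j) + P (s.erase j) y (y j) / (y a - y j) := by
      intro j hj
      have hja : j ≠ a := fun h => ha (h ▸ hj)
      have h4 : P ((insert a s).erase j) y (y j) = (1 - 1 / (y j - y a)) * P (s.erase j) y (y j) := by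
        unfold P
        rw [Finset.erase_insert_of_ne hja.symm, Finset.prod_insert]
        intro h; exact ha (Finset.mem_of_mem_erase h)
      have e5 : 1 / (y j - y a) = - (1 / (y a - y j)) := by
        rw [← neg_sub (y a) (y j), one_div_neg_eq_neg_one_div]
      rw [h4, e5]
      ring
    have h4' : ∀ j ∈ s, y j * P ((insert a s).erase j) y (y j)
        = y j * (P (s.erase j) y (y j) + P (s.erase j) y (y j) / (y a - y j)) := by
      intro j hj
      rw [h4 j hj]
    rw [Finset.sum_insert ha, Finset.sum_insert ha, Finset.erase_insert ha,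
      Finset.card_insert_of_notMem ha, Finset.sum_congr rfl h4, Finset.sum_congr rfl h4',
      Finset.sum_insert ha]
    constructor
    · rw [Finset.sum_add_distrib, h1, h3]
      push_cast
      ring
    · have h5 : ∀ j ∈ s, y j * (P (s.erase j) y (y j) + P (s.erase j) y (y j) / (y a - y j))
          = y j * P (s.erase j) y (y j) + (y a * (P (s.erase j) y (y j) / (y a - y j))
            - P (s.erase j) y (y j)) := by
        intro j hj
        have e3 : y a - y j ≠ 0 := sub_ne_zero.mpr (has j hj)
        field_simp
        ring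
      rw [Finset.sum_congr rfl h5, Finset.sum_add_distrib, Finset.sum_sub_distrib, h1, h2, h3,
        ← Finset.mul_sum]
      push_cast
      ring

end Pool.Agent.Work.MP_ca14f8_co
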