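import Pool.Agent.Work.MP_ca14f8_co.Basic
import Pool.Agent.Work.MP_ca14f8_co.Frac

/-!
Product formula for permutations with at most one descent, for MP_ca14f8_co.
-/

set_option autoImplicit false
open Classical

namespace Pool.Agent.Work.MP_ca14f8_co

variable {n : ℕ}

/-- At most one descent, between the first `m` positions and the others. -/
def Gr (m : ℕ) (w : Equiv.Perm (Fin n)) : Prop :=
  ∀ i j : Fin n, i < j → w j < w i → i.val < m ∧ m ≤ j.val

/-- The first `m` positions. -/
def Sm (n m : ℕ) : Finset (Fin n) := Finset.univ.filter (fun i => i.val < m)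

theorem mem_Sm {m : ℕ} (i : Fin n) : i ∈ Sm n m ↔ i.val < m := by simp [Sm]

/-- The values as rational numbers. -/
def yv (w : Equiv.Perm (Fin n)) (i : Fin n) : ℚ := ((w i).val : ℚ)

theorem yv_inj (w : Equiv.Perm (Fin n)) (s : Set (Fin n)) : Set.InjOn (yv w) s := by
  intro i _ j _ h
  unfold yv at h
  have h' : (w i).val = (w j).val := by exact_mod_cast h
  exact w.injective (Fin.ext h')

/-- Pairs of positions among the first `m`. -/
def Tm (n m : ℕ) : Finset (Fin n × Fin n) :=
  Finset.univ.filter (fun p => p.1 < p.2 ∧ p.2.val < m)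

/-- The product formula. -/
def V (m : ℕ) (w : Equiv.Perm (Fin n)) : ℚ :=
  ∏ p ∈ Tm n m, (yv w p.2 - yv w p.1) / ((p.2.val : ℚ) - (p.1.val : ℚ))

theorem Gr_lt {m : ℕ} {w : Equiv.Perm (Fin n)} (hw : Gr m w) {i j : Fin n} (hij : i < j)
    (hj : j.val < m) : w i < w j := by
  rcases lt_trichotomy (w i) (w j) with h | h | h
  · exact h
  · exact absurd (w.injective h) hij.ne
  · exact absurd hj (not_lt.mpr (hw i j hij h).2)

theorem yP_eq_zero {m : ℕ} {w : Equiv.Perm (Fin n)} {j : Fin n} (hj : j ∈ Sm n m)
    (h : ∀ i, (w i).val + 1 = (w j).val → i < j) :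
    yv w j * P ((Sm n m).erase j) (yv w) (yv w j) = 0 := by
  rcases Nat.eq_zero_or_pos (w j).val with h0 | h0
  · unfold yv; rw [h0]; simp
  · have hlt : (w j).val - 1 < n := by have := (w j).isLt; omega
    set i := w.symm ⟨(w j).val - 1, hlt⟩ with hi
    have hwi : (w i).val + 1 = (w j).val := by
      rw [hi, Equiv.apply_symm_apply]; simp; omega
    have hij := h i hwi
    have hmem : i ∈ (Sm n m).erase j := by
      rw [Finset.mem_erase, mem_Sm]
      rw [mem_Sm] at hj
      refine ⟨hij.ne, ?_⟩
      have := Fin.lt_def.mp hij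
      omega
    have : P ((Sm n m).erase j) (yv w) (yv w j) = 0 := by
      unfold P
      refine Finset.prod_eq_zero hmem ?_
      have e : yv w j = yv w i + 1 := by unfold yv; rw [← hwi]; push_cast; ring
      rw [e]; simp
    rw [this, mul_zero]

theorem sum_Sm (n m : ℕ) : ∑ i ∈ Sm n m, (i.val : ℚ)
    = ((Sm n m).card : ℚ) * (((Sm n m).card : ℚ) - 1) / 2 := by
  have h := (sum_P (Sm n m) (yv (1 : Equiv.Perm (Fin n))) (yv_inj _ _)).2
  have h0 : ∑ j ∈ Sm n m, yv (1 : Equiv.Perm (Fin n)) j *
      P ((Sm n m).erase j) (yv (1 : Equiv.Perm (Fin n))) (yv (1 : Equiv.Perm (Fin n)) j) = 0 := by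
    refine Finset.sum_eq_zero ?_
    intro j hj
    refine yP_eq_zero hj ?_
    intro i hi
    rw [Fin.lt_def]
    simp at hi
    omega
  rw [h0] at h
  have h2 : ∑ i ∈ Sm n m, (i.val : ℚ) = ∑ j ∈ Sm n m, yv (1 : Equiv.Perm (Fin n)) j := by
    refine Finset.sum_congr rfl ?_
    intro i _
    simp [yv]
  rw [h2]
  linarith

theorem card_inv_Gr {m : ℕ} {w : Equiv.Perm (Fin n)} (hw : Gr m w) :
    ((inv w).card : ℚ) = ∑ j ∈ Sm n m, yv w j -
      ((Sm n m).card : ℚ) * (((Sm n m).card : ℚ) - 1) / 2 := by
  rw [← sum_Sm, ← Finset.sum_sub_distrib]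
  have h1 : ((inv w).card : ℚ) = ∑ i : Fin n, ∑ k : Fin n,
      (if i < k ∧ w k < w i then (1 : ℚ) else 0) := by
    unfold inv
    rw [Finset.card_filter]
    push_cast
    rw [Fintype.sum_prod_type]
  rw [h1]
  have hS : ∑ j ∈ Sm n m, (yv w j - (j.val : ℚ)) =
      ∑ j : Fin n, if j.val < m then (yv w j - (j.val : ℚ)) else 0 := by
    unfold Sm; rw [Finset.sum_filter]
  rw [hS]
  refine Finset.sum_congr rfl ?_
  intro i _
  by_cases hi : i.val < m
  · rw [if_pos hi]
    have h2 : ∀ k : Fin n, (if i < k ∧ w k < w i then (1 : ℚ) else 0) =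
        (if w k < w i then 1 else 0) - (if k < i then 1 else 0) := by
      intro k
      rcases lt_trichotomy k i with h | h | h
      · have h3 := Gr_lt hw h hi
        rw [if_neg, if_pos h3, if_pos h, sub_self]
        rintro ⟨h4, _⟩
        exact absurd h4 (not_lt.mpr h.le)
      · subst h; simp
      · rw [if_neg (not_lt.mpr h.le) (c := k < i), sub_zero]
        simp [h]
    rw [Finset.sum_congr rfl (fun k _ => h2 k), Finset.sum_sub_distrib]
    have h3 : ∑ k : Fin n, (if w k < w i then (1 : ℚ) else 0) = yv w i := by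
      rw [Equiv.sum_comp w (fun k => if k < w i then (1 : ℚ) else 0)]
      rw [← Finset.sum_filter]
      simp only [Finset.sum_const, nsmul_eq_mul, mul_one]
      have : (Finset.univ.filter (fun k : Fin n => k < w i)) = Finset.Iio (w i) := by
        ext; simp
      rw [this, Fin.card_Iio]
      rfl
    have h4 : ∑ k : Fin n, (if k < i then (1 : ℚ) else 0) = (i.val : ℚ) := by
      rw [← Finset.sum_filter]
      simp only [Finset.sum_const, nsmul_eq_mul, mul_one]
      have : (Finset.univ.filter (fun k : Fin n => k < i)) = Finset.Iio i := by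
        ext; simp
      rw [this, Fin.card_Iio]
    rw [h3, h4]
  · rw [if_neg hi]
    refine Finset.sum_eq_zero ?_
    intro k _
    rw [if_neg]
    rintro ⟨h2, h3⟩
    exact hi (hw i k h2 h3).1

/-- `V` after lowering the value at `j` by one. -/
theorem V_step {m : ℕ} {w u : Equiv.Perm (Fin n)} (hw : Gr m w) {j : Fin n} (hj : j.val < m)
    (hu : yv u j = yv w j - 1) (hu' : ∀ i : Fin n, i.val < m → i ≠ j → yv u i = yv w i) :
    V m u = V m w * P ((Sm n m).erase j) (yv w) (yv w j) := by
  set ρ : Fin n → ℚ := fun i => 1 - 1 / (yv w j - yv w i) with hρ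
  have key : V m u = V m w * ∏ p ∈ Tm n m, ((if p.2 = j then ρ p.1 else 1) *
      (if p.1 = j then ρ p.2 else 1)) := by
    unfold V
    rw [← Finset.prod_mul_distrib]
    refine Finset.prod_congr rfl ?_
    intro p hp
    unfold Tm at hp
    rw [Finset.mem_filter] at hp
    obtain ⟨_, h1, h2⟩ := hp
    have h1' := Fin.lt_def.mp h1
    have h3 : p.1.val < m := by omega
    have h4 := Gr_lt hw h1 h2
    have h5 : yv w p.2 - yv w p.1 ≠ 0 := by
      unfold yv
      rw [sub_ne_zero]
      intro h
      have : (w p.2).val = (w p.1).val := by exact_mod_cast h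
      have := Fin.lt_def.mp h4
      omega
    by_cases ha : p.2 = j
    · have hb : p.1 ≠ j := by rw [← ha]; exact h1.ne
      rw [if_pos ha, if_neg hb, mul_one, hu' p.1 h3 hb]
      rw [ha] at h5 ⊢
      rw [hu, hρ]
      simp only
      field_simp
      ring
    · rw [if_neg ha, one_mul]
      by_cases hb : p.1 = j
      · rw [if_pos hb, hu' p.2 h2 ha]
        rw [hb] at h5 ⊢
        rw [hu, hρ]
        simp only
        have h6 : yv w j - yv w p.2 ≠ 0 := by
          intro h; apply h5; linarith
        have h7 : 1 / (yv w j - yv w p.2) = - (1 / (yv w p.2 - yv w j)) := by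
          rw [← neg_sub (yv w p.2) (yv w j), one_div_neg_eq_neg_one_div]
        rw [h7]
        field_simp
        ring
      · rw [if_neg hb, mul_one, hu' p.1 h3 hb, hu' p.2 h2 ha]
  rw [key]
  congr 1
  rw [Finset.prod_mul_distrib]
  have hA : ∏ p ∈ Tm n m, (if p.2 = j then ρ p.1 else 1) =
      ∏ i : Fin n, if i < j then ρ i else 1 := by
    unfold Tm
    rw [Finset.prod_filter, Fintype.prod_prod_type]
    refine Finset.prod_congr rfl ?_
    intro i _
    rw [Finset.prod_eq_single j]
    · simp only [if_true, hj, and_true]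
    · intro k _ hk
      simp [hk]
    · intro h; exact absurd (Finset.mem_univ j) h
  have hB : ∏ p ∈ Tm n m, (if p.1 = j then ρ p.2 else 1) =
      ∏ i : Fin n, if j < i ∧ i.val < m then ρ i else 1 := by
    unfold Tm
    rw [Finset.prod_filter, Fintype.prod_prod_type, Finset.prod_eq_single j]
    · simp only [if_true]
    · intro k _ hk
      refine Finset.prod_eq_one ?_
      intro x _
      simp [hk]
    · intro h; exact absurd (Finset.mem_univ j) h
  rw [hA, hB, ← Finset.prod_mul_distrib]
  unfold P
  have hC : ∏ i ∈ (Sm n m).erase j, (1 - 1 / (yv w j - yv w i)) =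
      ∏ i : Fin n, if i ∈ (Sm n m).erase j then ρ i else 1 := by
    rw [Finset.prod_ite_mem, Finset.univ_inter]
  rw [hC]
  refine Finset.prod_congr rfl ?_
  intro i _
  have hmem : i ∈ (Sm n m).erase j ↔ i ≠ j ∧ i.val < m := by
    rw [Finset.mem_erase, mem_Sm]
  rcases lt_trichotomy i j with h | h | h
  · have h' := Fin.lt_def.mp h
    rw [if_pos h, if_neg (fun hh => absurd hh.1 (not_lt.mpr h.le)), mul_one, if_pos]
    rw [hmem]
    exact ⟨h.ne, by omega⟩
  · subst h; simp
  · rw [if_neg (not_lt.mpr h.le), one_mul]
    by_cases hm : i.val < m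
    · rw [if_pos ⟨h, hm⟩, if_pos (hmem.mpr ⟨h.ne', hm⟩)]
    · rw [if_neg (fun hh => hm hh.2), if_neg (fun hh => hm (hmem.mp hh).2)]

theorem eq_one_of_inv {w : Equiv.Perm (Fin n)} (h : (inv w).card = 0) : w = 1 := by
  rw [Finset.card_eq_zero] at h
  have hmono : StrictMono w := by
    intro i j hij
    rcases lt_trichotomy (w i) (w j) with h1 | h1 | h1
    · exact h1
    · exact absurd (w.injective h1) hij.ne
    · exfalso
      have : (i, j) ∈ inv w := by rw [mem_inv]; exact ⟨hij, h1⟩
      rw [h] at this
      exact absurd this (Finset.notMem_empty _)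
  have e : (hmono.orderIsoOfSurjective w w.surjective) = OrderIso.refl (Fin n) :=
    Subsingleton.elim _ _
  ext x
  have := congrArg (fun f : Fin n ≃o Fin n => (f x).val) e
  simpa using this

theorem V_one (m : ℕ) : V m (1 : Equiv.Perm (Fin n)) = 1 := by
  unfold V
  refine Finset.prod_eq_one ?_
  intro p hp
  unfold Tm at hp
  rw [Finset.mem_filter] at hp
  have h := Fin.lt_def.mp hp.2.1
  unfold yv
  simp only [Equiv.Perm.coe_one, id_eq]
  rw [div_self]
  rw [sub_ne_zero]
  intro h2
  have : p.2.val = p.1.val := by exact_mod_cast h2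
  omega

/-- The product formula for the weighted number of reduced words. -/
theorem N_Gr (m : ℕ) : ∀ (L : ℕ) (w : Equiv.Perm (Fin n)), Gr m w → (inv w).card = L →
    N L w = (L.factorial : ℚ) * V m w := by
  intro L
  induction L with
  | zero =>
    intro w _ hL
    have := eq_one_of_inv hL
    subst this
    rw [N_zero, if_pos rfl, V_one]
    simp
  | succ L ih =>
    intro w hw hL
    rw [N_succ]
    have h1 : ∑ p ∈ (Finset.univ : Finset (Fin n × Fin n)).filter
          (fun p => p.2.val = p.1.val + 1),
        ((p.1.val : ℚ) + 1) * N L (Equiv.swap p.1 p.2 * w) =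
        ∑ p ∈ (Finset.univ : Finset (Fin n × Fin n)).filter
          (fun p => p.2.val = p.1.val + 1 ∧ w.symm p.2 < w.symm p.1),
        ((p.1.val : ℚ) + 1) * N L (Equiv.swap p.1 p.2 * w) := by
      symm
      refine Finset.sum_subset ?_ ?_
      · intro p hp
        rw [Finset.mem_filter] at hp ⊢
        exact ⟨hp.1, hp.2.1⟩
      · intro p hp hp2
        rw [Finset.mem_filter] at hp hp2
        have h2 : w.symm p.1 < w.symm p.2 := by
          rcases lt_trichotomy (w.symm p.1) (w.symm p.2) with h | h | h
          · exact h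
          · exfalso
            have := w.symm.injective h
            have h3 := hp.2
            rw [this] at h3
            omega
          · exact absurd ⟨hp.1, hp.2, h⟩ hp2
        rw [N_eq_zero, mul_zero]
        rw [card_inv_up w hp.2 h2]
        omega
    rw [h1]
    have h2 : ∑ p ∈ (Finset.univ : Finset (Fin n × Fin n)).filter
          (fun p => p.2.val = p.1.val + 1 ∧ w.symm p.2 < w.symm p.1),
        ((p.1.val : ℚ) + 1) * N L (Equiv.swap p.1 p.2 * w) =
        ∑ j ∈ Sm n m, (L.factorial : ℚ) * V m w *
          (yv w j * P ((Sm n m).erase j) (yv w) (yv w j)) := by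
      refine Finset.sum_of_injOn (fun p => w.symm p.2) ?_ ?_ ?_ ?_
      · intro p hp q hq hpq
        have hp' := (Finset.mem_filter.mp (Finset.mem_coe.mp hp)).2
        have hq' := (Finset.mem_filter.mp (Finset.mem_coe.mp hq)).2
        have e := w.symm.injective hpq
        ext1
        · apply Fin.ext
          have := congrArg Fin.val e
          omega
        · exact e
      · intro p hp
        have hp' := (Finset.mem_filter.mp (Finset.mem_coe.mp hp)).2
        rw [Finset.mem_coe, mem_Sm]
        refine (hw (w.symm p.2) (w.symm p.1) hp'.2 ?_).1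
        rw [Equiv.apply_symm_apply, Equiv.apply_symm_apply, Fin.lt_def]
        omega
      · intro j hj hj2
        rw [yP_eq_zero hj, mul_zero]
        intro i hi
        by_contra hcon
        apply hj2
        refine ⟨(w i, w j), ?_, by simp⟩
        rw [Finset.mem_coe, Finset.mem_filter]
        refine ⟨Finset.mem_univ _, hi.symm, ?_⟩
        simp only [Equiv.symm_apply_apply]
        rcases lt_trichotomy i j with h | h | h
        · exact absurd h hcon
        · subst h; omega
        · exact h
      · intro p hp
        have hp' := (Finset.mem_filter.mp hp).2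
        have hdown := card_inv_down w hp'.1 hp'.2
        have hinv : w (w.symm p.1) < w (w.symm p.2) := by
          rw [Equiv.apply_symm_apply, Equiv.apply_symm_apply, Fin.lt_def]
          omega
        have hm := hw _ _ hp'.2 hinv
        have hGr : Gr m (Equiv.swap p.1 p.2 * w) := by
          intro x y hxy hlt
          have : (x, y) ∈ inv (Equiv.swap p.1 p.2 * w) := by
            rw [mem_inv]; exact ⟨hxy, hlt⟩
          have := inv_down_subset w hp'.1 hp'.2 this
          rw [mem_inv] at this
          exact hw x y this.1 this.2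
        rw [ih _ hGr (by omega)]
        have hst := V_step (u := Equiv.swap p.1 p.2 * w) hw (j := w.symm p.2) hm.1 (by
            unfold yv
            simp only [Equiv.Perm.coe_mul, Function.comp_apply, Equiv.apply_symm_apply,
              Equiv.swap_apply_right, hp'.1]
            push_cast; ring) (by
            intro i hi hne
            unfold yv
            simp only [Equiv.Perm.coe_mul, Function.comp_apply]
            rw [Equiv.swap_apply_of_ne_of_ne]
            · intro h
              have : i = w.symm p.1 := by rw [← h]; simp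
              rw [this] at hi
              omega
            · intro h
              apply hne
              rw [← h]; simp)
        rw [hst]
        have hy : yv w (w.symm p.2) = (p.1.val : ℚ) + 1 := by
          unfold yv
          rw [Equiv.apply_symm_apply, hp'.1]
          push_cast; ring
        rw [hy]
        ring
    rw [h2, ← Finset.mul_sum, (sum_P (Sm n m) (yv w) (yv_inj _ _)).2, ← card_inv_Gr hw, hL,
      Nat.factorial_succ]
    push_cast
    ring

end Pool.Agent.Work.MP_ca14f8_co
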